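import Pool.Agent.Y262.EG.Stm

/-!
# Project EG: invariance of the Liouville measure on the bundle
-/

set_option autoImplicit false

open Set Filter Topology MeasureTheory
open scoped ContDiff

namespace Pool.Agent.Y261.EG.MpP

open Pool.Agent.Y262.EG

theorem isOpen_YO {Ω : Set ℂ} (h : IsOpen Ω) : IsOpen (YO Ω) := h.preimage continuous_fst

theorem meas_inter {P : Type} [TopologicalSpace P] [MeasurableSpace P] [BorelSpace P] {O : Set Y}
    {q : Y → P} (hO : IsOpen O) (hq : ContinuousOn q O) {S : Set P} (hS : MeasurableSet S) :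
    MeasurableSet (O ∩ q ⁻¹' S) := by
  have h1 : Measurable (O.domRestrict q) := (continuousOn_iff_continuous_domRestrict.1 hq).measurable
  have h2 := hO.measurableSet.subtype_image (h1 hS)
  have h3 : O ∩ q ⁻¹' S = Subtype.val '' (O.domRestrict q ⁻¹' S) := by
    ext y
    constructor
    · rintro ⟨hy, hy'⟩
      exact ⟨⟨y, hy⟩, hy', rfl⟩
    · rintro ⟨⟨z, hz⟩, hz', rfl⟩
      exact ⟨hz, hz'⟩
  rw [h3]
  exact h2

theorem mpP : StUniq → StLiouUp → StEt → StFinP → StFlP → StMpP := by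
  intro _ hL hE hF hFl M P _ _ _ _ _ _ Ω φ pr q m Fl hU hLi hG
  obtain ⟨e1, e2, e3, e4⟩ := hFl M P Ω φ pr q Fl hU hG
  obtain ⟨g1, -, -⟩ := hE M P Ω φ pr q hU
  obtain ⟨-, -, f3⟩ := hF M P Ω φ pr q m hU hLi
  set T := FlP Ω q Fl with hT
  have hinv : ∀ t x, T (-t) (T t x) = x := fun t x => by rw [← e4, neg_add_cancel, e3]
  have hinv' : ∀ t x, T t (T (-t) x) = x := fun t x => by rw [← e4, add_neg_cancel, e3]
  have hcont : ∀ t, Continuous (T t) := fun t =>
    e2.comp (Continuous.prodMk_right t)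
  have hpre : ∀ t (A : Set P), T (-t) ⁻¹' A = T t '' A := by
    intro t A
    ext x
    constructor
    · intro hx
      exact ⟨T (-t) x, hx, hinv' t x⟩
    · rintro ⟨a, ha, rfl⟩
      show T (-t) (T t a) ∈ A
      rw [hinv]; exact ha
  have claimA : ∀ t (B : Set Y), MeasurableSet B → B ⊆ YO Ω → InjOn q B →
      m (T t '' (q '' B)) = m (q '' B) := by
    intro t B hB hBO hinj
    have h1 : T t '' (q '' B) = q '' (Fl t '' B) := by
      rw [image_image, image_image]
      exact image_congr fun b hb => e1 t b (hBO hb)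
    have h2 : Fl t '' B ⊆ YO Ω := by
      rintro _ ⟨b, hb, rfl⟩
      exact hG.maps t b (hBO hb)
    have h3 : InjOn q (Fl t '' B) := by
      rintro _ ⟨b, hb, rfl⟩ _ ⟨b', hb', rfl⟩ h
      rw [← e1 t b (hBO hb), ← e1 t b' (hBO hb')] at h
      have h4 := congrArg (T (-t)) h
      rw [hinv, hinv] at h4
      rw [hinj hb hb' h4]
    obtain ⟨h4, h5⟩ := hL Ω φ Fl hU.opn hU.smooth hG t B hB hBO
    rw [h1, hLi _ h4 h2 h3, h5, hLi B hB hBO hinj]
  have main : ∀ t, Measure.map (T (-t)) m = m := by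
    intro t
    have hmeas : Measurable (T (-t)) := (hcont (-t)).measurable
    have hcov : ∀ x : P, ∃ O : Set Y, IsOpen O ∧ O ⊆ YO Ω ∧ InjOn q O ∧ q '' O ∈ 𝓝 x := by
      intro x
      obtain ⟨p, hp, rfl⟩ : x ∈ q '' YO Ω := by rw [hU.surjq]; exact mem_univ _
      obtain ⟨r, hr, hr1, hr2⟩ := g1 p hp
      exact ⟨Metric.ball p r, Metric.isOpen_ball, hr1, hr2,
        (hU.opnq _ Metric.isOpen_ball hr1).mem_nhds ⟨p, Metric.mem_ball_self hr, rfl⟩⟩
    choose O hO1 hO2 hO3 hO4 using hcov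
    obtain ⟨s, hs, hs'⟩ := TopologicalSpace.countable_cover_nhds hO4
    refine (Measure.ext_iff_of_biUnion_eq_univ hs hs').2 fun x _ => ?_
    refine Measure.ext fun S hS => ?_
    rw [Measure.restrict_apply hS, Measure.restrict_apply hS]
    have hB := meas_inter (hO1 x) (hU.contq.mono (hO2 x)) hS
    have hBO : O x ∩ q ⁻¹' S ⊆ YO Ω := fun y hy => hO2 x hy.1
    have h1 : S ∩ q '' O x = q '' (O x ∩ q ⁻¹' S) := by
      rw [image_inter_preimage, inter_comm]
    rw [h1, Measure.map_apply hmeas (f3 _ hB hBO).1, hpre t]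
    exact claimA t _ hB hBO ((hO3 x).mono inter_subset_left)
  intro t
  refine ⟨(hcont t).measurable, ?_⟩
  have h := main (-t)
  rwa [neg_neg] at h

end Pool.Agent.Y261.EG.MpP
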