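import Pool.Agent.Y262.EG.Stm

/-!
# Project EG: uniqueness and the group law of the geodesic flow
-/

set_option autoImplicit false

open Set Filter Topology
open scoped ContDiff

namespace Pool.Agent.Y261.EG.Uniq

open Pool.Agent.Y262.EG

theorem isOpen_YO {Ω : Set ℂ} (h : IsOpen Ω) : IsOpen (YO Ω) := h.preimage continuous_fst

theorem sm_px {Ω : Set ℂ} {φ : ℂ → ℝ} (hΩ : IsOpen Ω) (hφ : ContDiffOn ℝ ∞ φ Ω) :
    ContDiffOn ℝ ∞ (px φ) Ω :=
  (hφ.fderiv_of_isOpen hΩ (m := ∞) (by simp)).clm_apply contDiffOn_const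

theorem sm_py {Ω : Set ℂ} {φ : ℂ → ℝ} (hΩ : IsOpen Ω) (hφ : ContDiffOn ℝ ∞ φ Ω) :
    ContDiffOn ℝ ∞ (py φ) Ω :=
  (hφ.fderiv_of_isOpen hΩ (m := ∞) (by simp)).clm_apply contDiffOn_const

theorem sm_mk {S : Set Y} {A B : Y → ℝ} (hA : ContDiffOn ℝ ∞ A S) (hB : ContDiffOn ℝ ∞ B S) :
    ContDiffOn ℝ ∞ (fun p => (⟨A p, B p⟩ : ℂ)) S :=
  (Complex.equivRealProdCLM.symm.contDiff.comp_contDiffOn (hA.prodMk hB))

theorem sm_XX {Ω : Set ℂ} {φ : ℂ → ℝ} (hΩ : IsOpen Ω) (hφ : ContDiffOn ℝ ∞ φ Ω) :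
    ContDiffOn ℝ ∞ (XX φ) (YO Ω) := by
  have h1 : ContDiffOn ℝ ∞ (fun p : Y => φ p.1) (YO Ω) :=
    hφ.comp contDiff_fst.contDiffOn (fun p hp => hp)
  have h2 : ContDiffOn ℝ ∞ (fun p : Y => px φ p.1) (YO Ω) :=
    (sm_px hΩ hφ).comp contDiff_fst.contDiffOn (fun p hp => hp)
  have h3 : ContDiffOn ℝ ∞ (fun p : Y => py φ p.1) (YO Ω) :=
    (sm_py hΩ hφ).comp contDiff_fst.contDiffOn (fun p hp => hp)
  have hc : ContDiffOn ℝ ∞ (fun p : Y => Real.cos p.2) (YO Ω) :=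
    (Real.contDiff_cos.comp contDiff_snd).contDiffOn
  have hs : ContDiffOn ℝ ∞ (fun p : Y => Real.sin p.2) (YO Ω) :=
    (Real.contDiff_sin.comp contDiff_snd).contDiffOn
  have he : ContDiffOn ℝ ∞ (fun p : Y => Real.exp (-φ p.1)) (YO Ω) :=
    Real.contDiff_exp.comp_contDiffOn h1.neg
  exact (sm_mk (he.mul hc) (he.mul hs)).prodMk
    (he.mul ((h2.neg.mul hs).add (h3.mul hc)))

theorem uniq : StUniq := by
  intro Ω φ hΩ hφ
  have hX := sm_XX hΩ hφ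
  have main : ∀ (a b : ℝ → Y) (I : Set ℝ), IsOpen I → IsPreconnected I →
      (∀ t ∈ I, a t ∈ YO Ω ∧ b t ∈ YO Ω) →
      (∀ t ∈ I, HasDerivAt a (XX φ (a t)) t ∧ HasDerivAt b (XX φ (b t)) t) →
      ∀ t0 ∈ I, a t0 = b t0 → ∀ t ∈ I, a t = b t := by
    intro a b I hI hpre hm hd t0 ht0 h0
    have key : I ⊆ {t | t ∈ I ∧ a t = b t} := by
      refine hpre.subset_of_closure_inter_subset ?_ ⟨t0, ht0, ht0, h0⟩ ?_
      · rw [isOpen_iff_mem_nhds]
        rintro t ⟨ht, hab⟩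
        have hc : ContDiffAt ℝ 1 (XX φ) (a t) :=
          (hX.contDiffAt ((isOpen_YO hΩ).mem_nhds (hm t ht).1)).of_le (by simp)
        obtain ⟨K, s, hs, hK⟩ := hc.exists_lipschitzOnWith
        have hIt : ∀ᶠ τ in 𝓝 t, τ ∈ I := hI.mem_nhds ht
        have ha : ∀ᶠ τ in 𝓝 t, a τ ∈ s := (hd t ht).1.continuousAt.eventually_mem hs
        have hb : ∀ᶠ τ in 𝓝 t, b τ ∈ s :=
          (hd t ht).2.continuousAt.eventually_mem (by rw [← hab]; exact hs)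
        have h1 : a =ᶠ[𝓝 t] b := by
          refine ODE_solution_unique_of_eventually (v := fun _ => XX φ) (s := fun _ => s) (K := K)
            (Eventually.of_forall fun _ => hK) ?_ ?_ hab
          · filter_upwards [hIt, ha] with τ h1 h2 using ⟨(hd τ h1).1, h2⟩
          · filter_upwards [hIt, hb] with τ h1 h2 using ⟨(hd τ h1).2, h2⟩
        filter_upwards [hIt, h1] with τ h1 h2 using ⟨h1, h2⟩
      · rintro t ⟨hcl, ht⟩
        refine ⟨ht, ?_⟩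
        have h1 : ∃ᶠ τ in 𝓝 t, a τ = b τ :=
          (mem_closure_iff_frequently.1 hcl).mono fun τ h => h.2
        exact tendsto_nhds_unique_of_frequently_eq (hd t ht).1.continuousAt
          (hd t ht).2.continuousAt h1
    exact fun t ht => (key ht).2
  refine ⟨main, ?_⟩
  intro Fl hF t t' p hp
  have h1 : ∀ τ, HasDerivAt (fun τ => Fl (τ + t') p) (XX φ (Fl (τ + t') p)) τ := fun τ =>
    (hF.ode (τ + t') p hp).comp_add_const τ t'
  exact main (fun τ => Fl (τ + t') p) (fun τ => Fl τ (Fl t' p)) univ isOpen_univ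
    isPreconnected_univ (fun τ _ => ⟨hF.maps _ p hp, hF.maps _ _ (hF.maps _ p hp)⟩)
    (fun τ _ => ⟨h1 τ, hF.ode τ _ (hF.maps _ p hp)⟩) 0 (mem_univ _)
    (by simp only [zero_add]; rw [hF.zero _ (hF.maps _ p hp)]) t (mem_univ _)

end Pool.Agent.Y261.EG.Uniq
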